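import Mathlib
import Pool.Agent.R105.WR.Val

set_option autoImplicit false

/-! The distance of an integer to the Julia set of the entire `3x+1` function `f₀`. -/

open Filter Topology Metric Set

namespace Pool.Agent.Results.MP_071ec9_an.DistanceToJulia

open Pool.Agent.H384R2.Fatou

/-- The entire function of Letherman, Schleicher and Wood; `f₀ n = T n` for every integer `n`. -/
noncomputable def f₀ (z : ℂ) : ℂ :=
  z / 2 + (z + 1 / 2) * ((1 - Complex.cos (Real.pi * z)) / 2) +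
    1 / Real.pi * (1 / 2 - Complex.cos (Real.pi * z)) * Complex.sin (Real.pi * z)

/-- The `3x+1` function. -/
def T (n : ℤ) : ℤ := if n % 2 = 0 then n / 2 else (3 * n + 1) / 2

/-- The Fatou component of `f₀` which contains the integer `n`. -/
def U (n : ℤ) : Set ℂ := FatouComponent f₀ (n : ℂ)

/-- The distance of `n` to the Julia set of `f₀`. -/
noncomputable def d (n : ℤ) : ℝ := infDist (n : ℂ) (FatouSet f₀)ᶜ

/-- The number `V n = ∑_{k ≥ 0} 2^{-(k+1)} [T^k n is odd]`: its binary digits are the parities of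
`n, T n, T² n, …`. -/
noncomputable def V (n : ℤ) : ℝ := ∑' k : ℕ, (if (T^[k] n) % 2 = 0 then (0 : ℝ) else 1) / 2 ^ (k + 1)

/-- The number `ρ(n) = exp (- ∑_{i ≥ 0} 2^{-(i+1)} log (π²/4 · |T^i n + 1/2|))`. -/
noncomputable def ρ (n : ℤ) : ℝ :=
  Real.exp (-∑' i : ℕ, Real.log (Real.pi ^ 2 / 4 * |((T^[i] n : ℤ) : ℝ) + 1 / 2|) / 2 ^ (i + 1))

/-- There is `C` such that for every integer `n ≠ 0`: the distance `d n` of `n` to the Julia set of `f₀`
is positive, it is the radius of the largest open disc about `n` which is contained in the Fatou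
component of `n` (`r ≤ d n` iff the disc of radius `r` is contained in it), and
* `|d(n) / ρ(n) - 1| ≤ C / |n|`,
* `|(π²/8) · 3^{V(n)} · |n| · d(n) - 1| ≤ C (1 + log |n|) / |n|`, where `0 ≤ V(n) ≤ 1`. -/
theorem result : ∃ C : ℝ, ∀ n : ℤ, n ≠ 0 →
    0 < d n ∧ (∀ r : ℝ, r ≤ d n ↔ ball (n : ℂ) r ⊆ U n) ∧
    |d n / ρ n - 1| ≤ C / |(n : ℝ)| ∧
    0 ≤ V n ∧ V n ≤ 1 ∧
    |Real.pi ^ 2 / 8 * 3 ^ V n * |(n : ℝ)| * d n - 1| ≤ C * (1 + Real.log |(n : ℝ)|) / |(n : ℝ)| := by
  obtain ⟨K1, h1, hK1⟩ := Pool.Agent.R105.WR.main_rho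
  obtain ⟨K2, h2, hK2⟩ := Pool.Agent.R105.WR.main_log
  refine ⟨max (K1 * Real.exp (K1 * 1)) (K2 * Real.exp (K2 * 1)), fun n hn => ?_⟩
  have hD : d n = Pool.Agent.R105.WR.D n := rfl
  have hV : V n = Pool.Agent.R105.WR.V n := rfl
  have hρ : ρ n = Pool.Agent.Y282.WD.rho n := rfl
  have hn1 : 1 ≤ |(n : ℝ)| := by
    have : 1 ≤ |n| := Int.one_le_abs hn
    exact_mod_cast this
  have hn0 : 0 < |(n : ℝ)| := by linarith
  have hlog : 0 ≤ Real.log |(n : ℝ)| := Real.log_nonneg hn1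
  have hD0 := Pool.Agent.R105.WR.D_pos n
  have hr0 := (Pool.Agent.Y151.WD.t_TAIL.2 n).1
  refine ⟨hD0, fun r => ⟨fun hr => ?_, fun hr => ?_⟩, ?_, ?_, ?_, ?_⟩
  · refine (ball_subset_ball hr).trans ?_
    refine IsPreconnected.subset_connectedComponentIn (convex_ball _ _).isPreconnected ?_
      (Pool.Agent.R105.WR.ball_D n)
    exact mem_ball_self hD0
  · exact Pool.Agent.R105.WR.le_D fun z hz => connectedComponentIn_subset _ _ (hr hz)
  · have h := Pool.Agent.R105.WR.rel_of_log (K := K1) (L := 1) (y := 1 / |(n : ℝ)|)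
      (div_pos hD0 hr0) h1 (by have := hK1 n hn; rwa [mul_one_div]) (by
        rw [div_le_one hn0]; exact hn1)
    rw [mul_one_div] at h
    rw [hD, hρ]
    refine h.trans ?_
    gcongr
    exact le_max_left _ _
  · rw [hV]; exact Pool.Agent.R105.WR.V_nonneg n
  · rw [hV]; exact Pool.Agent.R105.WR.V_le_one n
  · have h3 : (0 : ℝ) < 3 ^ Pool.Agent.R105.WR.V n := Real.rpow_pos_of_pos (by norm_num) _
    have h := Pool.Agent.R105.WR.rel_of_log (K := K2) (L := 1)
      (x := Real.pi ^ 2 / 8 * 3 ^ Pool.Agent.R105.WR.V n * |(n : ℝ)| * Pool.Agent.R105.WR.D n)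
      (y := (1 + Real.log |(n : ℝ)|) / |(n : ℝ)|)
      (by positivity) h2 (by have := hK2 n hn; rwa [← mul_div_assoc]) (by
        rw [div_le_one hn0]
        have := Real.log_le_sub_one_of_pos hn0
        linarith)
    rw [← mul_div_assoc] at h
    rw [hD, hV]
    refine h.trans ?_
    gcongr
    exact le_max_right _ _

end Pool.Agent.Results.MP_071ec9_an.DistanceToJulia
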