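import Mathlib
import Pool.Agent.R105.WR.Law

set_option autoImplicit false

/-! The law of the distances of the integers to the Julia set of the entire `3x+1` function `f₀`. -/

open Filter Topology Metric Set

namespace Pool.Agent.Results.MP_071ec9_an.LawOfDistances

open Pool.Agent.H384R2.Fatou

/-- The entire function of Letherman, Schleicher and Wood; `f₀ n = T n` for every integer `n`. -/
noncomputable def f₀ (z : ℂ) : ℂ :=
  z / 2 + (z + 1 / 2) * ((1 - Complex.cos (Real.pi * z)) / 2) +
    1 / Real.pi * (1 / 2 - Complex.cos (Real.pi * z)) * Complex.sin (Real.pi * z)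

/-- The `3x+1` function. -/
def T (n : ℤ) : ℤ := if n % 2 = 0 then n / 2 else (3 * n + 1) / 2

/-- The Fatou component of `f₀` which contains the integer `n`. -/
def U (n : ℤ) : Set ℂ := FatouComponent f₀ (n : ℂ)

/-- The integers whose Fatou component is a wandering domain of `f₀`. -/
def WanderingIntegers : Set ℤ := {n | IsWanderingDomain f₀ (U n)}

/-- The distance of `n` to the Julia set of `f₀`. -/
noncomputable def d (n : ℤ) : ℝ := infDist (n : ℂ) (FatouSet f₀)ᶜ

/-- Among the integers of sign `s` the set `S` has natural density `δ`. -/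
def HasDensity (s : ℤ) (S : Set ℤ) (δ : ℝ) : Prop :=
  Tendsto (fun N : ℕ => ({n : ℤ | 0 < s * n ∧ s * n ≤ N ∧ n ∈ S}.ncard : ℝ) / N) atTop (𝓝 δ)

/-- The set of the integers in wandering domains is completely invariant under `T`. Let `s = 1` or
`s = -1` and let `S` be a completely `T`-invariant set of integers (all integers, the integers in
wandering domains, those in the basin of a given cycle, …). Then `S` has a natural density `δ` among
the integers of sign `s`, which is `0` only if `S` has no element of sign `s`, and for `0 ≤ u ≤ 1`, `M`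
odd and every `a` the elements `n ≡ a` modulo `M` of `S` whose distance `d n` to the Julia set satisfies
`|n| d(n) ≤ (8/π²) 3^{-u}` have natural density `(1 - u) δ / M`.

For every integer `n` the disc of radius `d n` about `n` is contained in the Fatou component of `n`,
and no larger one is. -/
theorem result :
    (∀ n : ℤ, n ∈ WanderingIntegers ↔ T n ∈ WanderingIntegers) ∧
    (∀ (n : ℤ) (r : ℝ), r ≤ d n ↔ ball (n : ℂ) r ⊆ U n) ∧
    ∀ (S : Set ℤ) (s : ℤ), (∀ n : ℤ, n ∈ S ↔ T n ∈ S) → (s = 1 ∨ s = -1) →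
      ∃ δ : ℝ, HasDensity s S δ ∧ (δ = 0 ↔ ∀ n : ℤ, 0 < s * n → n ∉ S) ∧
        ∀ (M : ℕ) (a : ℤ) (u : ℝ), Odd M → 0 ≤ u → u ≤ 1 →
          HasDensity s
            {n | n ∈ S ∧ n ≡ a [ZMOD M] ∧ |(n : ℝ)| * d n ≤ 8 / Real.pi ^ 2 * 3 ^ (-u)}
            ((1 - u) * δ / M) := by
  refine ⟨fun n => ?_, fun n r => ⟨fun hr => ?_, fun hr => ?_⟩, fun S s hS hs => ?_⟩
  · have h1 : n ∈ WanderingIntegers ↔ Pool.Agent.H723R2.LSW.Wild n :=
      Pool.Agent.H723R2.LSW.wandering_iff n
    have h2 : T n ∈ WanderingIntegers ↔ Pool.Agent.H723R2.LSW.Wild (T n) :=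
      Pool.Agent.H723R2.LSW.wandering_iff (T n)
    rw [h1, h2]
    constructor
    · intro h
      exact Pool.Agent.H723R2.LSW.wild_iter h 1
    · intro h i j hij
      apply h i j
      show (Pool.Agent.H723R2.LSW.T)^[i] (Pool.Agent.H723R2.LSW.T n) =
        (Pool.Agent.H723R2.LSW.T)^[j] (Pool.Agent.H723R2.LSW.T n)
      rw [← Function.iterate_succ_apply, ← Function.iterate_succ_apply,
        Function.iterate_succ_apply', Function.iterate_succ_apply', hij]
  · refine (ball_subset_ball hr).trans ?_
    refine IsPreconnected.subset_connectedComponentIn (convex_ball _ _).isPreconnected ?_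
      (Pool.Agent.R105.WR.ball_D n)
    exact mem_ball_self (Pool.Agent.R105.WR.D_pos n)
  · exact Pool.Agent.R105.WR.le_D fun z hz => connectedComponentIn_subset _ _ (hr hz)
  · obtain ⟨δ, h0, h1, h2⟩ := Pool.Agent.R105.WR.dens (A := S) hS hs
    refine ⟨δ, ?_, h0, fun M a u hM hu0 hu1 => ?_⟩
    · refine Filter.Tendsto.congr (fun N => ?_) h1
      rw [Pool.Agent.R105.WR.W_ncard hs]
    · have h3 := Pool.Agent.R105.WR.law hs h2 hM a hu0 hu1
      have e : δ / M * (1 - u) = (1 - u) * δ / M := by ring
      rw [e] at h3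
      refine Filter.Tendsto.congr (fun N => ?_) h3
      rw [← Pool.Agent.R105.WR.W_ncard hs]
      congr 3
      ext n
      constructor
      · rintro ⟨h4, h5, ⟨h6, h7⟩, h8⟩; exact ⟨h4, h5, h6, h7, h8⟩
      · rintro ⟨h4, h5, h6, h7, h8⟩; exact ⟨h4, h5, ⟨h6, h7⟩, h8⟩

end Pool.Agent.Results.MP_071ec9_an.LawOfDistances
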