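import Mathlib
import Pool.Agent.R630.WD.Basic
import Pool.Agent.Results.MP_ff4775_nt.ProductsOfTwoPrimes

/-!
# Products of two primes in the Fatou components of the entire interpolation `f₀` of the `3x+1` map

The integers in wandering domains, and the integers attracted to a given cycle, are equidistributed
among the products of two primes `p q` in a bilinear sense, for arbitrary sets of primes `p` and `q`,
and the kinds of the products `p i * q j` of a matrix are asymptotically independent.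
-/

set_option autoImplicit false

open Filter Topology Metric Set

namespace Pool.Agent.Results.MP_071ec9_an.ProductsOfTwoPrimes

open Pool.Agent.H384R2.Fatou

/-- The entire function of Letherman, Schleicher and Wood; `f₀ n = T n` for every integer `n`, where
`T` is the `3x+1` function. -/
noncomputable def f₀ (z : ℂ) : ℂ :=
  z / 2 + (z + 1 / 2) * ((1 - Complex.cos (Real.pi * z)) / 2) +
    1 / Real.pi * (1 / 2 - Complex.cos (Real.pi * z)) * Complex.sin (Real.pi * z)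

/-- The integers whose Fatou component is a wandering domain of `f₀`. -/
def WanderingIntegers : Set ℤ := {n | IsWanderingDomain f₀ (FatouComponent f₀ n)}

/-- The integers `n` in the Fatou set whose component is not a wandering domain and is attracted to
the cycle of the integer `a`, of period (dividing) `p`: all points `z` of the component satisfy
`f₀^(k+pm)(z) → a` as `m → ∞`, for some `k`. -/
def BasinIntegers (a : ℤ) (p : ℕ) : Set ℤ :=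
  {n | (n : ℂ) ∈ FatouSet f₀ ∧ ¬ IsWanderingDomain f₀ (FatouComponent f₀ n) ∧
    ∃ k : ℕ, ∀ z ∈ FatouComponent f₀ n,
      Tendsto (fun m : ℕ => f₀^[k + p * m] z) atTop (𝓝 (a : ℂ))}

/-- `S` is the set of the integers in wandering domains, or the set of the integers attracted to the
cycle of an integer `a` of sign `s`, or the complement of one of these. -/
def Kind (s : ℤ) (S : Set ℤ) : Prop :=
  ∃ S' : Set ℤ, (S' = WanderingIntegers ∨ ∃ (a : ℤ) (q : ℕ), 0 < s * a ∧ 0 < q ∧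
    f₀^[q] (a : ℂ) = a ∧ S' = BasinIntegers a q) ∧ (S = S' ∨ S = S'ᶜ)

/-- `S` contains an integer of sign `s`. -/
def Occurs (s : ℤ) (S : Set ℤ) : Prop := ∃ n : ℤ, 0 < s * n ∧ n ∈ S

/-- Among the integers of sign `s` the set `S` has natural density `δ`. -/
def HasDensity (s : ℤ) (S : Set ℤ) (δ : ℝ) : Prop :=
  Tendsto (fun N : ℕ => ({n : ℤ | 0 < s * n ∧ s * n ≤ N ∧ n ∈ S}.ncard : ℝ) / N) atTop (𝓝 δ)

/-- The number of the pairs of primes `p ∈ A`, `q ∈ B` with `N ^ α ≤ p ≤ N ^ β`, `r p q ≤ N` and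
`s r p q ∈ S`. -/
noncomputable def Pairs (s : ℤ) (S : Set ℤ) (A B : Set ℕ) (α β : ℝ) (r N : ℕ) : ℕ :=
  {z : ℕ × ℕ | (z.1.Prime ∧ z.1 ∈ A ∧ (N : ℝ) ^ α ≤ z.1 ∧ (z.1 : ℝ) ≤ (N : ℝ) ^ β) ∧
    (z.2.Prime ∧ z.2 ∈ B) ∧ r * z.1 * z.2 ≤ N ∧ s * (r * z.1 * z.2 : ℕ) ∈ S}.ncard

/-- The number of the tuples of primes `p i ∈ A i` in `(P, 2 P]` (`i < k`) and `q j ∈ B j` in `[1, N]`
(`j < l`) with `s (p i) (q j) ∈ S i j` for all `i` and `j`. -/
noncomputable def Tuples (s : ℤ) {k l : ℕ} (S : Fin k → Fin l → Set ℤ) (A : Fin k → Set ℕ)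
    (B : Fin l → Set ℕ) (P : ℝ) (N : ℕ) : ℕ :=
  {z : (Fin k → ℕ) × (Fin l → ℕ) | (∀ i, (z.1 i).Prime ∧ z.1 i ∈ A i ∧ P < z.1 i ∧ (z.1 i : ℝ) ≤ 2 * P) ∧
    (∀ j, (z.2 j).Prime ∧ z.2 j ∈ B j ∧ z.2 j ≤ N) ∧ ∀ i j, s * (z.1 i * z.2 j : ℕ) ∈ S i j}.ncard

/-- The number of the tuples of primes `p i` in `(P, 2 P]` (`i < k`) and `q j` in `[1, N]` (`j < l`). -/
noncomputable def AllTuples (k l : ℕ) (P : ℝ) (N : ℕ) : ℕ :=
  {p : ℕ | p.Prime ∧ P < p ∧ (p : ℝ) ≤ 2 * P}.ncard ^ k * {q : ℕ | q.Prime ∧ q ≤ N}.ncard ^ l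

theorem kind_inv {s : ℤ} {S : Set ℤ} (h : Kind s S) :
    Pool.Agent.Results.MP_ff4775_nt.ProductsOfTwoPrimes.Invariant S := by
  obtain ⟨S', h1, h2⟩ := h
  have h3 : ∀ x : ℤ, x ∈ S' ↔ Pool.Agent.H723R2.LSW.T x ∈ S' := by
    rcases h1 with rfl | ⟨a, q, _, hq, ha, rfl⟩
    · exact Pool.Agent.R630.WD.wn_inv
    · exact Pool.Agent.R630.WD.bn_inv hq ha
  rcases h2 with rfl | rfl
  · exact h3
  · intro x
    exact not_congr (h3 x)

theorem kind_dens {s : ℤ} (hs : s = 1 ∨ s = -1) {S : Set ℤ} (h : Kind s S) :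
    ∃ δ : ℝ, 0 ≤ δ ∧ δ ≤ 1 ∧ HasDensity s S δ ∧ (0 < δ ↔ Occurs s S) := by
  have hinv := kind_inv h
  obtain ⟨δ, h0, h1, hδ⟩ := Pool.Agent.H499R2.ND.dens_side odd_one
    isCoprime_one_left hs (S := S) hinv
  have hD : HasDensity s S δ := Pool.Agent.H499R2.ND.HD_ncard hs hδ
  refine ⟨δ, h0, h1, hD, ?_, ?_⟩
  · intro hpos
    by_contra hno
    have hz : HasDensity s S 0 := by
      unfold HasDensity
      refine (tendsto_const_nhds (x := (0 : ℝ))).congr fun N => ?_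
      have : {n : ℤ | 0 < s * n ∧ s * n ≤ N ∧ n ∈ S} = ∅ := by
        ext n
        simp only [Set.mem_ofPred_eq, Set.mem_empty_iff_false, iff_false]
        rintro ⟨a1, _, a3⟩
        exact hno ⟨n, a1, a3⟩
      rw [this]
      simp
    exact hpos.ne' (tendsto_nhds_unique hD hz)
  · rintro ⟨n, h2, h3⟩
    exact Pool.Agent.H499R2.ND.one_pos hs hinv h3 h2 hδ

/-- Let `s = 1` or `s = -1`. We consider the sets `S` of the integers in wandering domains of `f₀`, of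
those attracted to the cycle of an integer of sign `s`, and their complements (kinds).
(0) Each of them has a natural density `δ` among the integers of sign `s`, and `δ > 0` if and only if it
contains an integer of sign `s`.
(1) BILINEAR ESTIMATE. Let `ε > 0`. There is `ϑ > 0` such that for `0 < α < β ≤ ϑ` and `N ≥ N₀ (ε, α, β)`,
for every kind `S`, all `r ≤ N ^ ϑ` and ARBITRARY sets `A`, `B`: among the products of two primes
`p ∈ A`, `q ∈ B` with `N ^ α ≤ p ≤ N ^ β` and `r p q ≤ N`, the number of those with `s r p q ∈ S` is `δ`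
times the number of all, up to `ε` times the number of all pairs of primes `p`, `q` with
`N ^ α ≤ p ≤ N ^ β` and `r p q ≤ N`.
(2) PATTERNS. Let `ε > 0`. There is `ϑ > 0` such that for `α > 0`, `N ≥ N₀` and `N ^ α ≤ P ≤ N ^ ϑ`: the
number of the tuples of primes `p i ∈ A i` in `(P, 2 P]` and `q j ∈ B j` in `[1, N]`, with
`s (p i) (q j) ∈ S i j` for all `i < k` and `j < l`, is the product of the densities of the kinds
`S i j` times the number of all such tuples, up to `ε (π (2 P) - π (P)) ^ k π (N) ^ l`.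
(3) If a kind `S` contains an integer of sign `s` (for example, if one integer of sign `s` lies in a
wandering domain), then it contains some `s p q` with primes `p ∈ A`, `q ∈ B`, for any `A`, `B`
containing, for a suitable `N`, a positive proportion `κ` of the pairs in (1), `β ≤ ϑ (κ)`; and every
matrix of kinds containing integers of sign `s` occurs as the pattern of the kinds of the products
`s (p i) (q j)` in (2) with a positive proportion, also for `p i ∈ A i` and `q j ∈ B j` when a positive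
proportion of all tuples is in these sets. -/
theorem result (s : ℤ) (hs : s = 1 ∨ s = -1) :
    (∀ S : Set ℤ, Kind s S →
      ∃ δ : ℝ, 0 ≤ δ ∧ δ ≤ 1 ∧ HasDensity s S δ ∧ (0 < δ ↔ Occurs s S)) ∧
    (∀ ε : ℝ, 0 < ε → ∃ ϑ : ℝ, 0 < ϑ ∧ ∀ α β : ℝ, 0 < α → α < β → β ≤ ϑ → ∃ N₀ : ℕ, ∀ N : ℕ, N₀ ≤ N →
      ∀ (S : Set ℤ) (δ : ℝ), Kind s S → HasDensity s S δ → ∀ r : ℕ, 1 ≤ r → (r : ℝ) ≤ (N : ℝ) ^ ϑ →
      0 < Pairs s Set.univ Set.univ Set.univ α β r N ∧ ∀ A B : Set ℕ,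
      |(Pairs s S A B α β r N : ℝ) - δ * Pairs s Set.univ A B α β r N| ≤
        ε * Pairs s Set.univ Set.univ Set.univ α β r N) ∧
    (∀ (k l : ℕ) (ε : ℝ), 0 < ε → ∃ ϑ : ℝ, 0 < ϑ ∧ ∀ α : ℝ, 0 < α → ∃ N₀ : ℕ, ∀ N : ℕ, N₀ ≤ N →
      ∀ P : ℝ, (N : ℝ) ^ α ≤ P → P ≤ (N : ℝ) ^ ϑ → ∀ (S : Fin k → Fin l → Set ℤ) (δ : Fin k → Fin l → ℝ),
      (∀ i j, Kind s (S i j) ∧ HasDensity s (S i j) (δ i j)) →
      0 < AllTuples k l P N ∧ ∀ (A : Fin k → Set ℕ) (B : Fin l → Set ℕ),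
      |(Tuples s S A B P N : ℝ) - (∏ i, ∏ j, δ i j) *
        Tuples s (fun (_ : Fin k) (_ : Fin l) => Set.univ) A B P N| ≤ ε * AllTuples k l P N) ∧
    ((∀ S : Set ℤ, Kind s S → Occurs s S → ∃ δ : ℝ, 0 < δ ∧ HasDensity s S δ ∧
      ∀ κ : ℝ, 0 < κ → ∃ ϑ : ℝ, 0 < ϑ ∧ ∀ α β : ℝ, 0 < α → α < β → β ≤ ϑ → ∃ N₀ : ℕ,
        ∀ N : ℕ, N₀ ≤ N → ∀ A B : Set ℕ,
        κ * Pairs s Set.univ Set.univ Set.univ α β 1 N ≤ Pairs s Set.univ A B α β 1 N →
        δ / 2 * Pairs s Set.univ A B α β 1 N ≤ Pairs s S A B α β 1 N ∧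
        ∃ p ∈ A, ∃ q ∈ B, p.Prime ∧ q.Prime ∧ p * q ≤ N ∧ s * (p * q : ℕ) ∈ S) ∧
      (∀ (k l : ℕ) (S : Fin k → Fin l → Set ℤ), (∀ i j, Kind s (S i j) ∧ Occurs s (S i j)) →
        ∃ c : ℝ, 0 < c ∧ ∀ κ : ℝ, 0 < κ → ∃ ϑ : ℝ, 0 < ϑ ∧
        ∀ α : ℝ, 0 < α → ∃ N₀ : ℕ, ∀ N : ℕ, N₀ ≤ N → ∀ P : ℝ, (N : ℝ) ^ α ≤ P → P ≤ (N : ℝ) ^ ϑ →
        0 < AllTuples k l P N ∧ ∀ (A : Fin k → Set ℕ) (B : Fin l → Set ℕ),
        κ * AllTuples k l P N ≤ Tuples s (fun (_ : Fin k) (_ : Fin l) => Set.univ) A B P N →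
        c * Tuples s (fun (_ : Fin k) (_ : Fin l) => Set.univ) A B P N ≤ Tuples s S A B P N)) := by
  obtain ⟨-, r1, r2, -⟩ := Pool.Agent.Results.MP_ff4775_nt.ProductsOfTwoPrimes.result s hs
  have p1 : ∀ ε : ℝ, 0 < ε → ∃ ϑ : ℝ, 0 < ϑ ∧ ∀ α β : ℝ, 0 < α → α < β → β ≤ ϑ → ∃ N₀ : ℕ,
      ∀ N : ℕ, N₀ ≤ N →
      ∀ (S : Set ℤ) (δ : ℝ), Kind s S → HasDensity s S δ → ∀ r : ℕ, 1 ≤ r → (r : ℝ) ≤ (N : ℝ) ^ ϑ →
      0 < Pairs s Set.univ Set.univ Set.univ α β r N ∧ ∀ A B : Set ℕ,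
      |(Pairs s S A B α β r N : ℝ) - δ * Pairs s Set.univ A B α β r N| ≤
        ε * Pairs s Set.univ Set.univ Set.univ α β r N := by
    intro ε hε
    obtain ⟨ϑ, h0, h1⟩ := r1 ε hε
    refine ⟨ϑ, h0, fun α β hα hαβ hβ => ?_⟩
    obtain ⟨N0, hN0⟩ := h1 α β hα hαβ hβ
    exact ⟨N0, fun N hN S δ hS hδ r hr hrN => hN0 N hN S δ (kind_inv hS) hδ r hr hrN⟩
  have p2 : ∀ (k l : ℕ) (ε : ℝ), 0 < ε → ∃ ϑ : ℝ, 0 < ϑ ∧ ∀ α : ℝ, 0 < α → ∃ N₀ : ℕ, ∀ N : ℕ, N₀ ≤ N →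
      ∀ P : ℝ, (N : ℝ) ^ α ≤ P → P ≤ (N : ℝ) ^ ϑ → ∀ (S : Fin k → Fin l → Set ℤ) (δ : Fin k → Fin l → ℝ),
      (∀ i j, Kind s (S i j) ∧ HasDensity s (S i j) (δ i j)) →
      0 < AllTuples k l P N ∧ ∀ (A : Fin k → Set ℕ) (B : Fin l → Set ℕ),
      |(Tuples s S A B P N : ℝ) - (∏ i, ∏ j, δ i j) *
        Tuples s (fun (_ : Fin k) (_ : Fin l) => Set.univ) A B P N| ≤ ε * AllTuples k l P N := by
    intro k l ε hε
    obtain ⟨ϑ, h0, h1⟩ := r2 k l ε hε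
    refine ⟨ϑ, h0, fun α hα => ?_⟩
    obtain ⟨N0, hN0⟩ := h1 α hα
    exact ⟨N0, fun N hN P hP1 hP2 S δ hSδ =>
      hN0 N hN P hP1 hP2 S δ (fun i j => ⟨kind_inv (hSδ i j).1, (hSδ i j).2⟩)⟩
  refine ⟨fun S hS => kind_dens hs hS, p1, p2, ?_, ?_⟩
  · intro S hS hocc
    obtain ⟨δ, -, -, hδ, hpos⟩ := kind_dens hs hS
    have hδ0 := hpos.2 hocc
    refine ⟨δ, hδ0, hδ, fun κ hκ => ?_⟩
    obtain ⟨ϑ, h0, h1⟩ := p1 (κ * δ / 2) (by positivity)
    refine ⟨ϑ, h0, fun α β hα hαβ hβ => ?_⟩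
    obtain ⟨N0, hN0⟩ := h1 α β hα hαβ hβ
    refine ⟨max 1 N0, fun N hN A B hAB => ?_⟩
    have hN1 : 1 ≤ N := (le_max_left _ _).trans hN
    obtain ⟨h2, h3⟩ := hN0 N ((le_max_right _ _).trans hN) S δ hS hδ 1 le_rfl
      (by rw [Nat.cast_one]; exact Real.one_le_rpow (by exact_mod_cast hN1) h0.le)
    have h4 := (abs_le.1 (h3 A B)).1
    have h5 := mul_le_mul_of_nonneg_left hAB (show 0 ≤ δ / 2 by positivity)
    have h6 : δ / 2 * (Pairs s Set.univ A B α β 1 N : ℝ) ≤ Pairs s S A B α β 1 N := by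
      linarith
    refine ⟨h6, ?_⟩
    have h7 : (0 : ℝ) < Pairs s Set.univ Set.univ Set.univ α β 1 N := by exact_mod_cast h2
    have h8 : (0 : ℝ) < Pairs s Set.univ A B α β 1 N := lt_of_lt_of_le (by positivity) hAB
    have h9 : (0 : ℝ) < Pairs s S A B α β 1 N := lt_of_lt_of_le (by positivity) h6
    have h10 : 0 < Pairs s S A B α β 1 N := by exact_mod_cast h9
    unfold Pairs at h10
    obtain ⟨z, ⟨hz1, hz2, hz3, hz4⟩⟩ := Set.nonempty_of_ncard_ne_zero h10.ne'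
    simp only [one_mul] at hz3 hz4
    exact ⟨z.1, hz1.2.1, z.2, hz2.2, hz1.1, hz2.1, hz3, hz4⟩
  · intro k l S hS
    have hE : ∀ i j, ∃ d : ℝ, 0 < d ∧ HasDensity s (S i j) d := by
      intro i j
      obtain ⟨d, -, -, hd, hpos⟩ := kind_dens hs (hS i j).1
      exact ⟨d, hpos.2 (hS i j).2, hd⟩
    choose d hd0 hd using hE
    have hpi : 0 < ∏ i, ∏ j, d i j := Finset.prod_pos fun i _ => Finset.prod_pos fun j _ => hd0 i j
    refine ⟨(∏ i, ∏ j, d i j) / 2, by positivity, fun κ hκ => ?_⟩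
    obtain ⟨ϑ, h0, h1⟩ := p2 k l (κ * (∏ i, ∏ j, d i j) / 2) (by positivity)
    refine ⟨ϑ, h0, fun α hα => ?_⟩
    obtain ⟨N0, hN0⟩ := h1 α hα
    refine ⟨N0, fun N hN P hP1 hP2 => ?_⟩
    obtain ⟨h2, h3⟩ := hN0 N hN P hP1 hP2 S d (fun i j => ⟨(hS i j).1, hd i j⟩)
    refine ⟨h2, fun A B hAB => ?_⟩
    have h4 := (abs_le.1 (h3 A B)).1
    have h5 := mul_le_mul_of_nonneg_left hAB (show 0 ≤ (∏ i, ∏ j, d i j) / 2 by positivity)
    linarith

end Pool.Agent.Results.MP_071ec9_an.ProductsOfTwoPrimes
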