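import Mathlib
import Pool.Agent.R630.WD.Basic
import Pool.Agent.Results.MP_ff4775_nt.CoalescingPrimes

/-!
# Primes and shifted primes in the Fatou components of the entire interpolation `f₀` of the `3x+1` map

For almost all primes `p`, and for almost all shifted primes `p - b`, uniformly in the shift, the
`f₀`-orbit meets those of all affine neighbours within logarithmic time, so that all the neighbours
lie in Fatou components of the same kind (wandering, or attracted to one and the same cycle), and the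
relative frequencies of the wandering primes and of the primes in the basins of the integer cycles
are bounded from both sides in terms of the natural densities.
-/

set_option autoImplicit false

open Filter Topology Metric Set

namespace Pool.Agent.Results.MP_071ec9_an.ShiftedPrimes

open Pool.Agent.H384R2.Fatou

/-- The entire function of Letherman, Schleicher and Wood; `f₀ n = T n` for every integer `n`, where
`T` is the `3x+1` function. -/
noncomputable def f₀ (z : ℂ) : ℂ :=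
  z / 2 + (z + 1 / 2) * ((1 - Complex.cos (Real.pi * z)) / 2) +
    1 / Real.pi * (1 / 2 - Complex.cos (Real.pi * z)) * Complex.sin (Real.pi * z)

/-- The integers whose Fatou component is a wandering domain of `f₀`. -/
def WanderingIntegers : Set ℤ := {n | IsWanderingDomain f₀ (FatouComponent f₀ n)}

/-- The integers `n` in the Fatou set whose component is not a wandering domain and is attracted to
the cycle of the integer `a`, of period (dividing) `p`: all points `z` of the component satisfy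
`f₀^(k+pm)(z) → a` as `m → ∞`, for some `k`. -/
def BasinIntegers (a : ℤ) (p : ℕ) : Set ℤ :=
  {n | (n : ℂ) ∈ FatouSet f₀ ∧ ¬ IsWanderingDomain f₀ (FatouComponent f₀ n) ∧
    ∃ k : ℕ, ∀ z ∈ FatouComponent f₀ n,
      Tendsto (fun m : ℕ => f₀^[k + p * m] z) atTop (𝓝 (a : ℂ))}

/-- Among the integers of sign `s` the set `S` has natural density `d`. -/
def HasDensity (s : ℤ) (S : Set ℤ) (d : ℝ) : Prop :=
  Tendsto (fun N : ℕ => ({n : ℤ | 0 < s * n ∧ s * n ≤ N ∧ n ∈ S}.ncard : ℝ) / N) atTop (𝓝 d)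

/-- The scale `√ (log n) / (log log n) ^ 17`. -/
noncomputable def κ (n : ℕ) : ℝ := √ (Real.log n) / (Real.log (Real.log n)) ^ 17

/-- At some time `t` with `4 ^ t ≤ n` the `f₀`-orbit of `s n` has met those of all its affine
neighbours, the integers `m` with `|2^a 3^b m - 2^a' 3^b' s n| ≤ exp (κ n)`, `a, b, a', b' ≤ κ n`. -/
def Coalesces (s : ℤ) (n : ℕ) : Prop := ∃ t : ℕ, 4 ^ t ≤ n ∧ ∀ a a' b b' : ℕ,
  (a : ℝ) ≤ κ n → (a' : ℝ) ≤ κ n → (b : ℝ) ≤ κ n → (b' : ℝ) ≤ κ n → ∀ m : ℤ,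
  |((2 ^ a * 3 ^ b * m - 2 ^ a' * 3 ^ b' * (s * n) : ℤ) : ℝ)| ≤ Real.exp (κ n) →
  f₀^[t + a'] (m : ℂ) = f₀^[t + a] ((s * n : ℤ) : ℂ)

/-- The number of the primes `p` with `1 ≤ p - b ≤ N` and `Q (p - b)`. -/
noncomputable def Shifted (b : ℤ) (N : ℕ) (Q : ℤ → Prop) : ℕ :=
  {p : ℕ | p.Prime ∧ b < p ∧ (p : ℤ) ≤ b + N ∧ Q (p - b)}.ncard

/-- At most `(4 δ + ε) N / log N` of the primes `p` with `1 ≤ p - b ≤ N` have `s (p - b) ∈ S`, and if
`b ≥ 0`, at least `(4 δ - 3 - ε) N / log N` do. -/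
def Bounds (s : ℤ) (S : Set ℤ) (δ ε : ℝ) (b : ℤ) (N : ℕ) : Prop :=
  (Shifted b N (fun x => s * x ∈ S) : ℝ) ≤ (4 * δ + ε) * N / Real.log N ∧
    (0 ≤ b → (4 * δ - 3 - ε) * N / Real.log N ≤ Shifted b N (fun x => s * x ∈ S))

/-- `m` and `n` lie in Fatou components of the same kind: either both lie in wandering domains or none
does, and both or none are attracted to any given cycle of integers. -/
def SameKind (m n : ℤ) : Prop :=
  (m ∈ WanderingIntegers ↔ n ∈ WanderingIntegers) ∧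
    ∀ (a : ℤ) (q : ℕ), 0 < q → f₀^[q] (a : ℂ) = a → (m ∈ BasinIntegers a q ↔ n ∈ BasinIntegers a q)

theorem sameKind_of_mer {m n : ℤ} (h : Pool.Agent.H723R2.LSW.Mer m n) : SameKind m n :=
  ⟨Pool.Agent.R630.WD.wn_mer h, fun _ _ hq ha => Pool.Agent.R630.WD.bn_mer hq ha h⟩

theorem f_iter (k : ℕ) (x : ℤ) :
    f₀^[k] (x : ℂ) = (((Pool.Agent.Results.MP_ff4775_nt.CoalescingPrimes.T)^[k] x : ℤ) : ℂ) :=
  Pool.Agent.H723R2.LSW.f₀_iter x k

theorem coal_iff (s : ℤ) (n : ℕ) :
    Coalesces s n ↔ Pool.Agent.Results.MP_ff4775_nt.CoalescingPrimes.Coalesces s n := by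
  unfold Coalesces Pool.Agent.Results.MP_ff4775_nt.CoalescingPrimes.Coalesces
  simp only [f_iter, Int.cast_inj]
  rfl

/-- Let `s = 1` or `s = -1`.
(1) COALESCENCE OF SHIFTED PRIMES. For every `ε` and `N ≥ N₀ (ε)` and all shifts `b` with `|b| ≤ N`,
for all but `ε N / log N` of the primes `p` with `1 ≤ p - b ≤ N` the `f₀`-orbit of `s (p - b)` has, at
some time `t ≤ log₄ (p - b)`, met those of all affine neighbours of `s (p - b)`.
(2) The integers of sign `s` in wandering domains have a natural density `w`, which is `0` only if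
there are none, and those attracted to the cycle of an integer `a` of sign `s` have a natural density
`β a > 0`; for all `N ≥ N₀ (ε)` and `|b| ≤ N`, where `N₀` depends on `ε` only: at most
`(4 w + ε) N / log N` of the primes `p` with `1 ≤ p - b ≤ N` have `s (p - b)` in a wandering domain,
and if `b ≥ 0`, at least `(4 w - 3 - ε) N / log N` do; and the same with `β a` for the basin of every
integer cycle of sign `s`.
(3) For almost all primes `p` all integers `m` with `|m - s p| ≤ exp (κ p)` lie in Fatou components of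
the same kind as that of `s p`: either all lie in wandering domains or none does, and for each cycle
of integers either all are attracted to it or none is. -/
theorem result (s : ℤ) (hs : s = 1 ∨ s = -1) :
    (∀ ε : ℝ, 0 < ε → ∃ N₀ : ℕ, ∀ N : ℕ, N₀ ≤ N → ∀ b : ℤ, |b| ≤ N →
      (Shifted b N (fun x => ¬ Coalesces s x.toNat) : ℝ) ≤ ε * N / Real.log N) ∧
    (∃ (w : ℝ) (β : ℤ → ℝ), HasDensity s WanderingIntegers w ∧
      (w = 0 ↔ ∀ n : ℤ, 0 < s * n → n ∉ WanderingIntegers) ∧
      (∀ (a : ℤ) (q : ℕ), 0 < s * a → 0 < q → f₀^[q] (a : ℂ) = a →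
        0 < β a ∧ HasDensity s (BasinIntegers a q) (β a)) ∧
      ∀ ε : ℝ, 0 < ε → ∃ N₀ : ℕ, ∀ N : ℕ, N₀ ≤ N → ∀ b : ℤ, |b| ≤ N →
        Bounds s WanderingIntegers w ε b N ∧
        ∀ (a : ℤ) (q : ℕ), 0 < s * a → 0 < q → f₀^[q] (a : ℂ) = a →
          Bounds s (BasinIntegers a q) (β a) ε b N) ∧
    (∀ ε : ℝ, 0 < ε → ∀ᶠ N : ℕ in atTop,
      ({p : ℕ | p.Prime ∧ p ≤ N ∧ ¬ ∀ m : ℤ, |((m - s * p : ℤ) : ℝ)| ≤ Real.exp (κ p) →
        SameKind m (s * p)}.ncard : ℝ) ≤ ε * N / Real.log N) := by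
  obtain ⟨r1, r2, -⟩ := Pool.Agent.Results.MP_ff4775_nt.CoalescingPrimes.result s hs
  have first : ∀ ε : ℝ, 0 < ε → ∃ N₀ : ℕ, ∀ N : ℕ, N₀ ≤ N → ∀ b : ℤ, |b| ≤ N →
      (Shifted b N (fun x => ¬ Coalesces s x.toNat) : ℝ) ≤ ε * N / Real.log N := by
    intro ε hε
    obtain ⟨N₀, h⟩ := r1 ε hε
    refine ⟨N₀, fun N hN b hb => ?_⟩
    have := h N hN b hb
    simp only [coal_iff]
    exact this
  refine ⟨first, ?_, ?_⟩
  · obtain ⟨w, β, h1, h2, h3⟩ := Pool.Agent.R630.WD.dens hs
    refine ⟨w, β, h1, h2, h3, fun ε hε => ?_⟩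
    obtain ⟨N₀, h⟩ := r2 ε hε
    obtain ⟨δ, hδ, hb⟩ := h WanderingIntegers Pool.Agent.R630.WD.wn_inv
    have hw : δ = w := tendsto_nhds_unique hδ h1
    subst hw
    refine ⟨N₀, fun N hN b hbN => ⟨hb N hN b hbN, fun a q ha hq haq => ?_⟩⟩
    obtain ⟨δ', hδ', hb'⟩ := h (BasinIntegers a q) (Pool.Agent.R630.WD.bn_inv hq haq)
    have hw' : δ' = β a := tendsto_nhds_unique hδ' (h3 a q ha hq haq).2
    rw [← hw']
    exact hb' N hN b hbN
  · intro ε hε
    obtain ⟨N₀, hN₀⟩ := first ε hε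
    filter_upwards [eventually_ge_atTop N₀] with N hN
    have h1 := hN₀ N hN 0 (by simp)
    have hsub : {p : ℕ | p.Prime ∧ p ≤ N ∧ ¬ ∀ m : ℤ, |((m - s * p : ℤ) : ℝ)| ≤ Real.exp (κ p) →
        SameKind m (s * p)} ⊆
        {p : ℕ | p.Prime ∧ (0 : ℤ) < p ∧ (p : ℤ) ≤ 0 + N ∧ ¬ Coalesces s ((p : ℤ) - 0).toNat} := by
      rintro p ⟨hp, hpN, hno⟩
      refine ⟨hp, by exact_mod_cast hp.pos, by rw [zero_add]; exact_mod_cast hpN, ?_⟩
      rw [sub_zero, Int.toNat_natCast]
      rintro ⟨t, _, hco⟩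
      apply hno
      intro m hm
      apply sameKind_of_mer
      rcases lt_or_ge (κ p) 0 with hk | hk
      · have h3 : |((m - s * p : ℤ) : ℝ)| < 1 := lt_of_le_of_lt hm (Real.exp_lt_one_iff.2 hk)
        have h4 : |m - s * (p : ℤ)| < 1 := by exact_mod_cast h3
        rw [Int.abs_lt_one_iff] at h4
        rw [show m = s * (p : ℤ) by omega]
        exact Pool.Agent.H723R2.LSW.Mer.refl _
      · have h3 := hco 0 0 0 0 (by simpa using hk) (by simpa using hk) (by simpa using hk)
          (by simpa using hk) m (by simpa only [pow_zero, one_mul] using hm)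
        rw [add_zero, f_iter, f_iter, Int.cast_inj] at h3
        exact ⟨t, t, h3⟩
    have hfin : {p : ℕ | p.Prime ∧ (0 : ℤ) < p ∧ (p : ℤ) ≤ 0 + N ∧
        ¬ Coalesces s ((p : ℤ) - 0).toNat}.Finite := by
      refine (Set.finite_Iic N).subset (fun p hp => ?_)
      have := hp.2.2.1
      rw [Set.mem_Iic]; omega
    exact le_trans (Nat.cast_le.2 (Set.ncard_le_ncard hsub hfin)) h1

end Pool.Agent.Results.MP_071ec9_an.ShiftedPrimes
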